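import Pool.Agent.H56.KAL.Stmts

/-!
# Counting grids in a dense set
-/

set_option autoImplicit false

namespace Pool.KAL

open Finset Real

/-- The set of families of `r` choices per coordinate, all of whose grid points lie in `X`. -/
private noncomputable def bxG (n r N : ℕ) (X : Finset (Fin n → Fin N)) :
    Finset (Fin n → Fin r → Fin N) := by
  classical
  exact univ.filter fun y : Fin n → Fin r → Fin N =>
      ∀ c : Fin n → Fin r, (fun i => y i (c i)) ∈ X

private lemma bx_split (n r N : ℕ) (X : Finset (Fin (n + 1) → Fin N)) :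
    (bxG (n + 1) r N X).card =
      ∑ y0 : Fin r → Fin N, (bxG n r N (univ.filter fun x' : Fin n → Fin N =>
        ∀ a : Fin r, (Fin.cons (y0 a) x' : Fin (n + 1) → Fin N) ∈ X)).card := by
  classical
  unfold bxG
  simp only [Finset.card_filter]
  rw [← Fintype.sum_prod_type']
  refine (Fintype.sum_equiv (Fin.consEquiv (fun _ : Fin (n + 1) => Fin r → Fin N)) _ _ ?_).symm
  rintro ⟨y0, y'⟩
  refine if_congr ?_ rfl rfl
  simp only [mem_filter, mem_univ, true_and, Fin.consEquiv_apply]
  constructor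
  · intro h c
    have := h (Fin.tail c) (c 0)
    convert this using 1
    funext i
    refine Fin.cases ?_ (fun j => ?_) i
    · simp
    · simp [Fin.tail]
  · intro h c' a
    have := h (Fin.cons a c')
    convert this using 1
    funext i
    refine Fin.cases ?_ (fun j => ?_) i
    · simp
    · simp

private lemma bx_first (n r N : ℕ) (X : Finset (Fin (n + 1) → Fin N)) :
    (∑ y0 : Fin r → Fin N, (univ.filter fun x' : Fin n → Fin N =>
        ∀ a : Fin r, (Fin.cons (y0 a) x' : Fin (n + 1) → Fin N) ∈ X).card) =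
      ∑ x' : Fin n → Fin N, (univ.filter fun x0 : Fin N =>
        (Fin.cons x0 x' : Fin (n + 1) → Fin N) ∈ X).card ^ r := by
  classical
  simp only [Finset.card_filter]
  rw [Finset.sum_comm]
  refine Finset.sum_congr rfl fun x' _ => ?_
  rw [← Finset.card_filter, ← Finset.card_filter]
  rw [show ((univ.filter fun y0 : Fin r → Fin N =>
      ∀ a : Fin r, (Fin.cons (y0 a) x' : Fin (n + 1) → Fin N) ∈ X)) =
      Fintype.piFinset (fun _ : Fin r => univ.filter fun x0 : Fin N =>
        (Fin.cons x0 x' : Fin (n + 1) → Fin N) ∈ X) from ?_]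
  · simp [Fintype.card_piFinset]
  · ext y; simp [Fintype.mem_piFinset]

private lemma bx_card (n N : ℕ) (X : Finset (Fin (n + 1) → Fin N)) :
    X.card = ∑ x' : Fin n → Fin N, (univ.filter fun x0 : Fin N =>
        (Fin.cons x0 x' : Fin (n + 1) → Fin N) ∈ X).card := by
  classical
  simp only [Finset.card_filter]
  rw [← Fintype.sum_prod_type_right' (f := fun (x0 : Fin N) (x' : Fin n → Fin N) =>
    if (Fin.cons x0 x' : Fin (n + 1) → Fin N) ∈ X then 1 else 0)]
  have h := Fintype.sum_equiv (Fin.consEquiv (fun _ : Fin (n + 1) => Fin N))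
    (fun x : Fin N × (Fin n → Fin N) =>
      if (Fin.cons x.1 x.2 : Fin (n + 1) → Fin N) ∈ X then 1 else 0)
    (fun x => if x ∈ X then 1 else 0) (fun x => rfl)
  rw [h]
  simp

/-- Power mean inequality on a finite type. -/
private lemma bx_mean {ι : Type} [Fintype ι] [Nonempty ι] (z : ι → ℝ) (hz : ∀ i, 0 ≤ z i) (k : ℕ) :
    (Fintype.card ι : ℝ) * ((∑ i, z i) / Fintype.card ι) ^ k ≤ ∑ i, z i ^ k := by
  have hc : (0 : ℝ) < Fintype.card ι := by exact_mod_cast Fintype.card_pos
  have h := Real.pow_arith_mean_le_arith_mean_pow univ (fun _ : ι => 1 / (Fintype.card ι : ℝ)) z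
    (fun i _ => by positivity) (by simp [hc.ne']) (fun i _ => hz i) k
  rw [← Finset.mul_sum, ← Finset.mul_sum] at h
  calc (Fintype.card ι : ℝ) * ((∑ i, z i) / Fintype.card ι) ^ k
      = (Fintype.card ι : ℝ) * (1 / (Fintype.card ι : ℝ) * ∑ i, z i) ^ k := by ring_nf
    _ ≤ (Fintype.card ι : ℝ) * (1 / (Fintype.card ι : ℝ) * ∑ i, z i ^ k) :=
        mul_le_mul_of_nonneg_left h hc.le
    _ = ∑ i, z i ^ k := by field_simp

private lemma bx_main (r N : ℕ) (hN : 1 ≤ N) : ∀ (n : ℕ) (X : Finset (Fin n → Fin N)),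
    ((X.card : ℝ) / (N : ℝ) ^ n) ^ (r ^ n) * (N : ℝ) ^ (n * r) ≤ ((bxG n r N X).card : ℝ) := by
  classical
  have : Nonempty (Fin N) := ⟨⟨0, hN⟩⟩
  have hN0 : (0 : ℝ) < N := by exact_mod_cast hN
  intro n
  induction n with
  | zero =>
    intro X
    simp only [pow_zero, div_one, pow_one, zero_mul, mul_one]
    rcases X.eq_empty_or_nonempty with h | h
    · simp [h]
    · have hX : X = univ := by
        obtain ⟨x, hx⟩ := h
        ext y
        simp only [mem_univ, iff_true]
        rwa [Subsingleton.elim y x]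
      have : bxG 0 r N X = univ := by
        unfold bxG
        rw [hX]
        ext y
        simp only [mem_filter, mem_univ, implies_true, and_self]
      rw [this, hX]
      simp
  | succ n ih =>
    intro X
    rw [bx_split]
    push_cast
    set Y : (Fin r → Fin N) → Finset (Fin n → Fin N) := fun y0 =>
      univ.filter fun x' : Fin n → Fin N =>
        ∀ a : Fin r, (Fin.cons (y0 a) x' : Fin (n + 1) → Fin N) ∈ X with hY
    have h1 : ∀ y0, ((Y y0).card / (N : ℝ) ^ n) ^ (r ^ n) * (N : ℝ) ^ (n * r) ≤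
        ((bxG n r N (Y y0)).card : ℝ) := fun y0 => ih (Y y0)
    have h2 := bx_first n r N X
    have h3 := bx_card n N X
    have h4 := bx_mean (fun x' : Fin n → Fin N => (((univ.filter fun x0 : Fin N =>
        (Fin.cons x0 x' : Fin (n + 1) → Fin N) ∈ X).card : ℕ) : ℝ)) (fun _ => by positivity) r
    have h5 := bx_mean (fun y0 : Fin r → Fin N => ((Y y0).card : ℝ) / (N : ℝ) ^ n)
      (fun _ => by positivity) (r ^ n)
    have e1 : (Fintype.card (Fin n → Fin N) : ℝ) = (N : ℝ) ^ n := by simp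
    have e2 : (Fintype.card (Fin r → Fin N) : ℝ) = (N : ℝ) ^ r := by simp
    rw [e1] at h4
    rw [e2] at h5
    have h2' : (∑ y0 : Fin r → Fin N, ((Y y0).card : ℝ)) =
        ∑ x' : Fin n → Fin N, (((univ.filter fun x0 : Fin N =>
        (Fin.cons x0 x' : Fin (n + 1) → Fin N) ∈ X).card : ℕ) : ℝ) ^ r := by
      have := congrArg (fun k : ℕ => (k : ℝ)) h2
      push_cast at this
      exact this
    have h3' : (X.card : ℝ) = ∑ x' : Fin n → Fin N, (((univ.filter fun x0 : Fin N =>
        (Fin.cons x0 x' : Fin (n + 1) → Fin N) ∈ X).card : ℕ) : ℝ) := by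
      have := congrArg (fun k : ℕ => (k : ℝ)) h3
      push_cast at this
      exact this
    rw [← h3', ← h2'] at h4
    -- density
    set a : ℝ := (X.card : ℝ) / (N : ℝ) ^ (n + 1) with ha
    have ha0 : 0 ≤ a := by positivity
    have h6 : a ^ r * (N : ℝ) ^ r ≤ ∑ y0 : Fin r → Fin N, ((Y y0).card : ℝ) / (N : ℝ) ^ n := by
      rw [← Finset.sum_div, le_div_iff₀ (by positivity)]
      calc a ^ r * (N : ℝ) ^ r * (N : ℝ) ^ n
          = (N : ℝ) ^ n * ((X.card : ℝ) / (N : ℝ) ^ n) ^ r := by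
            rw [ha, pow_succ, ← div_div, div_pow ((X.card : ℝ) / (N : ℝ) ^ n) (N : ℝ) r]
            field_simp
        _ ≤ _ := h4
    calc a ^ r ^ (n + 1) * (N : ℝ) ^ ((n + 1) * r)
        = ((N : ℝ) ^ r * ((a ^ r * (N : ℝ) ^ r) / (N : ℝ) ^ r) ^ (r ^ n)) * (N : ℝ) ^ (n * r) := by
          rw [mul_div_assoc, div_self (by positivity), mul_one, ← pow_mul, pow_succ' r n,
            add_mul, one_mul, pow_add]
          ring
      _ ≤ ((N : ℝ) ^ r * ((∑ y0 : Fin r → Fin N, ((Y y0).card : ℝ) / (N : ℝ) ^ n) /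
            (N : ℝ) ^ r) ^ (r ^ n)) * (N : ℝ) ^ (n * r) := by
          gcongr
      _ ≤ (∑ y0 : Fin r → Fin N, (((Y y0).card : ℝ) / (N : ℝ) ^ n) ^ (r ^ n)) *
            (N : ℝ) ^ (n * r) := by
          gcongr
      _ = ∑ y0 : Fin r → Fin N, (((Y y0).card : ℝ) / (N : ℝ) ^ n) ^ (r ^ n) *
            (N : ℝ) ^ (n * r) := by rw [Finset.sum_mul]
      _ ≤ ∑ y0 : Fin r → Fin N, ((bxG n r N (Y y0)).card : ℝ) :=
          Finset.sum_le_sum fun y0 _ => h1 y0

theorem bxc_thm : BXCStmt := by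
  classical
  intro n r N X σ hN hσ hX
  have hN0 : (0 : ℝ) < N := by exact_mod_cast hN
  have h := bx_main r N hN n X
  have h1 : σ ≤ (X.card : ℝ) / (N : ℝ) ^ n := by
    rw [le_div_iff₀ (by positivity)]; exact hX
  calc σ ^ (r ^ n) * (N : ℝ) ^ (n * r)
      ≤ ((X.card : ℝ) / (N : ℝ) ^ n) ^ (r ^ n) * (N : ℝ) ^ (n * r) := by gcongr
    _ ≤ ((bxG n r N X).card : ℝ) := h
    _ = _ := by
        unfold bxG
        congr!

end Pool.KAL
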